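import Pool.Agent.helper97.KR.Spec

set_option autoImplicit false

namespace Pool.Agent.helper97.KR

open Finset Classical

noncomputable section

lemma TG_ins {V E : Type} (ends : E → Sym2 V) (F : Finset E) (U : Finset V) (e : E) :
    e ∈ ins ends F U ↔ e ∈ F ∧ ∀ v ∈ ends e, v ∈ U := by
  unfold ins
  rw [Finset.mem_filter]

lemma TG_sum {V E : Type} (ends : E → Sym2 V) (F : Finset E) (U : Finset V) (T : Fin 3 → Finset E)
    (hd : ∀ i j, i ≠ j → Disjoint (T i) (T j)) (hF : ∀ e, e ∈ F ↔ ∃ i, e ∈ T i) :
    (ins ends F U).card = ∑ i, (ins ends (T i) U).card := by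
  have h1 : ins ends F U = Finset.univ.biUnion (fun i => ins ends (T i) U) := by
    ext e
    rw [Finset.mem_biUnion, TG_ins, hF]
    constructor
    · rintro ⟨⟨i, hi⟩, h⟩
      exact ⟨i, Finset.mem_univ i, (TG_ins ends (T i) U e).2 ⟨hi, h⟩⟩
    · rintro ⟨i, _, h⟩
      rw [TG_ins] at h
      exact ⟨⟨i, h.1⟩, h.2⟩
  rw [h1]
  apply Finset.card_biUnion
  intro i _ j _ hij
  exact Finset.disjoint_of_subset_left (Finset.filter_subset _ _)
    (Finset.disjoint_of_subset_right (Finset.filter_subset _ _) (hd i j hij))

theorem TG (hSP1 : SP1_stmt) : TG_stmt := by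
  intro V E ends S U t F g hU ht htight
  obtain ⟨T, hc, hcon, hd, hF⟩ := g.tr
  have hsub : ∀ i, ∀ e ∈ T i, ∀ v ∈ ends e, v ∈ S := fun i e he v hv =>
    g.sub e ((hF e).2 ⟨i, he⟩) v hv
  have hsp := fun i => hSP1 V E ends S (T i) (hsub i) (hcon i) (hc i) U hU t ht
  have hsum := TG_sum ends F U T hd hF
  rw [Fin.sum_univ_three] at hsum
  have h0 := (hsp 0).1
  have h1 := (hsp 1).1
  have h2 := (hsp 2).1
  have heq : ∀ i, (ins ends (T i) U).card + 1 = U.card := by
    have e0 : (ins ends (T 0) U).card + 1 = U.card := by omega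
    have e1 : (ins ends (T 1) U).card + 1 = U.card := by omega
    have e2 : (ins ends (T 2) U).card + 1 = U.card := by omega
    intro i
    fin_cases i
    · exact e0
    · exact e1
    · exact e2
  constructor
  · refine ⟨⟨t, ht⟩, ?_, ?_, fun i => ins ends (T i) U, heq, ?_, ?_, ?_⟩
    · intro e he v hv
      exact ((TG_ins ends F U e).1 he).2 v hv
    · intro e he
      exact g.loop e ((TG_ins ends F U e).1 he).1
    · intro i
      exact ((hsp i).2 (heq i)).1
    · intro i j hij
      exact Finset.disjoint_of_subset_left (Finset.filter_subset _ _)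
        (Finset.disjoint_of_subset_right (Finset.filter_subset _ _) (hd i j hij))
    · intro e
      rw [TG_ins, hF]
      constructor
      · rintro ⟨⟨i, hi⟩, h⟩
        exact ⟨i, (TG_ins ends (T i) U e).2 ⟨hi, h⟩⟩
      · rintro ⟨i, h⟩
        have h' := (TG_ins ends (T i) U e).1 h
        exact ⟨⟨i, h'.1⟩, h'.2⟩
  · refine ⟨⟨t, Finset.mem_insert_self _ _⟩, ?_, ?_, fun i => T i \ ins ends (T i) U, ?_, ?_, ?_, ?_⟩
    · intro e he v hv
      have he' := (Finset.mem_sdiff.1 he).1
      unfold cE at hv
      rw [Sym2.mem_map] at hv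
      obtain ⟨a, ha, hav⟩ := hv
      have haS := g.sub e he' a ha
      unfold cS
      unfold cp at hav
      by_cases haU : a ∈ U
      · rw [if_pos haU] at hav
        rw [← hav]
        exact Finset.mem_insert_self _ _
      · rw [if_neg haU] at hav
        rw [← hav]
        exact Finset.mem_insert_of_mem (Finset.mem_sdiff.2 ⟨haS, haU⟩)
    · intro e he hdg
      obtain ⟨heF, heU⟩ := Finset.mem_sdiff.1 he
      have hl := g.loop e heF
      rw [TG_ins] at heU
      unfold cE at hdg
      revert hl heU hdg
      generalize ends e = z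
      induction z using Sym2.ind with
      | _ a b =>
        intro hdg heU hl
        rw [Sym2.map_mk] at hdg
        have hab : a ≠ b := by
          intro h
          exact hl (Sym2.mk_isDiag_iff.2 h)
        have hcp : cp U t a = cp U t b := Sym2.mk_isDiag_iff.1 hdg
        unfold cp at hcp
        by_cases haU : a ∈ U
        · by_cases hbU : b ∈ U
          · apply heU
            refine ⟨heF, ?_⟩
            intro v hv
            rcases Sym2.mem_iff.1 hv with h | h
            · rw [h]; exact haU
            · rw [h]; exact hbU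
          · rw [if_pos haU, if_neg hbU] at hcp
            exact hbU (hcp ▸ ht)
        · by_cases hbU : b ∈ U
          · rw [if_neg haU, if_pos hbU] at hcp
            exact haU (hcp ▸ ht)
          · rw [if_neg haU, if_neg hbU] at hcp
            exact hab hcp
    · intro i
      have hs : ins ends (T i) U ⊆ T i := Finset.filter_subset _ _
      have hcd := Finset.card_sdiff_add_card_eq_card hs
      have hcs : (cS S U t).card = (S \ U).card + 1 := by
        unfold cS
        apply Finset.card_insert_of_notMem
        intro h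
        exact (Finset.mem_sdiff.1 h).2 ht
      have hSU := Finset.card_sdiff_add_card_eq_card hU
      have := hc i
      have := heq i
      show (T i \ ins ends (T i) U).card + 1 = (cS S U t).card
      omega
    · intro i
      exact ((hsp i).2 (heq i)).2
    · intro i j hij
      exact Finset.disjoint_of_subset_left Finset.sdiff_subset
        (Finset.disjoint_of_subset_right Finset.sdiff_subset (hd i j hij))
    · intro e
      rw [Finset.mem_sdiff, TG_ins, hF]
      constructor
      · rintro ⟨⟨i, hi⟩, h⟩
        refine ⟨i, Finset.mem_sdiff.2 ⟨hi, ?_⟩⟩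
        rw [TG_ins]
        intro h'
        exact h ⟨⟨i, hi⟩, h'.2⟩
      · rintro ⟨i, h⟩
        have h' := Finset.mem_sdiff.1 h
        rw [TG_ins] at h'
        refine ⟨⟨i, h'.1⟩, ?_⟩
        intro h''
        exact h'.2 ⟨h'.1, h''.2⟩

end

end Pool.Agent.helper97.KR
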